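import Pool.Agent.Lib.MP_5c394f_nt.Cum
import Pool.Agent.Lib.MP_5c394f_nt.Seq

/-!
For every real `η > 1` there is a strictly increasing sequence of positive integers with
ratio limit `η` whose lacunary cosine sums have independent-model cumulant asymptotics.
-/

set_option autoImplicit false

open Filter Topology MeasureTheory
open scoped Real

namespace Pool.Agent.Results.MP_5c394f_nt.IndepCumulants

/-- The `m`-th cumulant of a random variable `X` on `[0,1]` with Lebesgue measure:
the `m`-th derivative at `0` of `t ↦ log E[exp (t X)]`. -/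
noncomputable def cumulant (X : ℝ → ℝ) (m : ℕ) : ℝ :=
  iteratedDeriv m
    (fun t : ℝ => Real.log (∫ ω in Set.Icc (0 : ℝ) 1, Real.exp (t * X ω))) 0

/-- The lacunary sum of the first `n` terms (the sequence is indexed from `0`). -/
noncomputable def S (a : ℕ → ℕ) (n : ℕ) (ω : ℝ) : ℝ :=
  ∑ k ∈ Finset.range n, Real.cos (2 * π * a k * ω)

/-- The Bessel function `I₀(t) = ∑ (t/2)^(2j) / (j!)²`. -/
noncomputable def I0 (t : ℝ) : ℝ := ∑' j : ℕ, (t / 2) ^ (2 * j) / (j.factorial : ℝ) ^ 2

/-- The cumulants of the independent model. -/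
noncomputable def kappaTilde (m : ℕ) : ℝ := iteratedDeriv m (fun t : ℝ => Real.log (I0 t)) 0

open Pool.Agent.Lib.MP_5c394f_nt

theorem cumulant_eq (X : ℝ → ℝ) (m : ℕ) :
    cumulant X m = iteratedDeriv m (ProbabilityTheory.cgf X leb) 0 := rfl

theorem cumulant_cos (a : ℕ) (ha : 0 < a) (m : ℕ) :
    iteratedDeriv m (ProbabilityTheory.cgf (fun ω => Real.cos (2 * π * a * ω)) leb) 0 =
      kappaTilde m := by
  unfold kappaTilde
  congr 1
  ext t
  rw [ProbabilityTheory.cgf, mgf_cos a ha t, I0]

theorem S_mem (a : ℕ → ℕ) (n : ℕ) : (fun ω => (S a n ω : ℂ)) ∈ Spec (freq a n) := by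
  have : (fun ω => (S a n ω : ℂ)) =
      ∑ k ∈ Finset.range n, fun ω : ℝ => ((Real.cos (2 * π * a k * ω) : ℝ) : ℂ) := by
    ext ω
    simp only [S, Complex.ofReal_sum, Finset.sum_apply]
  rw [this]
  refine Submodule.sum_mem _ fun k hk => cos_mem ?_ ?_
  · simp only [freq, Finset.coe_insert, Finset.coe_union, Finset.coe_image, Set.mem_insert_iff,
      Set.mem_union, Set.mem_image, Finset.mem_coe]
    exact Or.inr (Or.inl ⟨k, hk, rfl⟩)
  · simp only [freq, Finset.coe_insert, Finset.coe_union, Finset.coe_image, Set.mem_insert_iff,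
      Set.mem_union, Set.mem_image, Finset.mem_coe]
    exact Or.inr (Or.inr ⟨k, hk, rfl⟩)

theorem result (η : ℝ) (hη : 1 < η) :
    ∃ a : ℕ → ℕ, StrictMono a ∧ (∀ k, 0 < a k) ∧
      Tendsto (fun k => (a (k + 1) : ℝ) / a k) atTop (𝓝 η) ∧
      ∀ m : ℕ, 1 ≤ m →
        Tendsto (fun n : ℕ => cumulant (S a n) m / n) atTop (𝓝 (kappaTilde m)) ∧
        ∃ (c : ℝ) (n₀ : ℕ), ∀ n ≥ n₀, cumulant (S a n) m = n * kappaTilde m + c := by
  obtain ⟨a, h1, h2, h3, h4⟩ := exists_seq η hη
  refine ⟨a, h1, h2, h3, fun m _ => ?_⟩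
  obtain ⟨k₀, hk₀⟩ := h4 m
  have step : ∀ n ≥ k₀, cumulant (S a (n + 1)) m = cumulant (S a n) m + kappaTilde m := by
    intro n hn
    have hS : S a (n + 1) = fun ω => S a n ω + Real.cos (2 * π * a n * ω) := by
      ext ω
      simp only [S, Finset.sum_range_succ]
    have hc : Continuous (S a n) := by
      unfold S
      fun_prop
    rw [hS, cumulant_eq, cumulant_eq, ← cumulant_cos (a n) (h2 n) m]
    apply cumulant_add hc (by fun_prop)
    intro i l hil
    exact moment_factor (freq a n) (by simp [freq]) (neg_freq a n) (S a n) (S_mem a n) (a n) m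
      (hk₀ n hn) i l hil
  have lin : ∀ n ≥ k₀, cumulant (S a n) m =
      (cumulant (S a k₀) m - k₀ * kappaTilde m) + n * kappaTilde m := by
    intro n hn
    induction n, hn using Nat.le_induction with
    | base => ring
    | succ n hn ih =>
      rw [step n hn, ih]
      push_cast
      ring
  refine ⟨?_, _, k₀, fun n hn => (lin n hn).trans (add_comm _ _)⟩
  have h5 := (tendsto_const_div_atTop_nhds_zero_nat
    (cumulant (S a k₀) m - k₀ * kappaTilde m)).add_const (kappaTilde m)
  rw [zero_add] at h5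
  refine h5.congr' ?_
  filter_upwards [eventually_ge_atTop k₀, eventually_ge_atTop 1] with n hn hn1
  have : (n : ℝ) ≠ 0 := by positivity
  rw [lin n hn]
  field_simp

end Pool.Agent.Results.MP_5c394f_nt.IndepCumulants
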